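import Mathlib
import Pool.Agent.H21.Grig

namespace Pool.Agent.Results.MP_03d093_al.Equiv

open Pool.Agent.H21.Grig

def Below (f h : ℕ → ℕ) : Prop := ∃ C : ℕ, 1 ≤ C ∧ ∀ n : ℕ, 1 ≤ n → f n ≤ h (C * n)

theorem result : Below sphere ball ∧ Below ball sphere := by
  refine ⟨⟨1, le_rfl, fun n _ => ?_⟩, ⟨64 * 8192, by norm_num, fun n hn => ball_le_sphere hn⟩⟩
  rw [one_mul]
  exact Nat.card_le_card_of_injective (fun g => (⟨g.1, g.2.le⟩ : {g : G // len g ≤ n}))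
    fun _ _ h => Subtype.ext (Subtype.mk.inj h)

end Pool.Agent.Results.MP_03d093_al.Equiv
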